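import Pool.Agent.T2H63.HF.Main

/-!
# Factorization for Haar arrays in `ℓ^∞`-sums of `L^{p_k}` with `p_k → 1` or `p_k → ∞`
-/

set_option autoImplicit false

open MeasureTheory Filter Topology
open scoped ENNReal

namespace Pool.Agent.Results.MP_e03f8f_an.FactorizationProperty

/-- Lebesgue measure on `[0,1)`. -/
noncomputable def lebesgue : Measure ℝ := (volume : Measure ℝ).restrict (Set.Ico 0 1)

/-- `L^p = L^p[0,1)` with Lebesgue measure (Mathlib's `Lp`). -/
def LSpace (p : ℝ≥0∞) : Type := Lp ℝ p lebesgue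

/-- The norm of `L^p` (Mathlib's). -/
noncomputable instance LSpace.normed (p : ℝ≥0∞) [Fact (1 ≤ p)] : NormedAddCommGroup (LSpace p) :=
  (inferInstance : NormedAddCommGroup (Lp ℝ p lebesgue))

/-- `L^p` is a real normed space (Mathlib's structure). -/
noncomputable instance LSpace.space (p : ℝ≥0∞) [Fact (1 ≤ p)] : NormedSpace ℝ (LSpace p) :=
  (inferInstance : NormedSpace ℝ (Lp ℝ p lebesgue))

/-- An element of `L^p`, as an element of Mathlib's `Lp`. -/
def LSpace.toLp {p : ℝ≥0∞} (f : LSpace p) : Lp ℝ p lebesgue := f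

/-- The underlying function of an element of `L^p`. -/
noncomputable def LSpace.fn {p : ℝ≥0∞} (f : LSpace p) : ℝ → ℝ := f.toLp

/-- The space `Z = ℓ^∞(L^{p_k} : k ∈ ℕ)` (Mathlib's `lp`). -/
def ZSpace (p : ℕ → ℝ≥0∞) [∀ k, Fact (1 ≤ p k)] : Type := lp (fun k => LSpace (p k)) ∞

/-- The sup norm on `Z` (Mathlib's). -/
noncomputable instance ZSpace.normed (p : ℕ → ℝ≥0∞) [∀ k, Fact (1 ≤ p k)] :
    NormedAddCommGroup (ZSpace p) :=
  (inferInstance : NormedAddCommGroup (lp (fun k => LSpace (p k)) ∞))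

/-- `Z` is a real normed space (Mathlib's structure). -/
noncomputable instance ZSpace.space (p : ℕ → ℝ≥0∞) [∀ k, Fact (1 ≤ p k)] :
    NormedSpace ℝ (ZSpace p) :=
  (inferInstance : NormedSpace ℝ (lp (fun k => LSpace (p k)) ∞))

/-- An element of `Z`, as an element of Mathlib's `lp`. -/
def ZSpace.toLp {p : ℕ → ℝ≥0∞} [∀ k, Fact (1 ≤ p k)] (z : ZSpace p) :
    lp (fun k => LSpace (p k)) ∞ := z

/-- The coordinate `z_k` of `z ∈ Z`. -/
def ZSpace.coord {p : ℕ → ℝ≥0∞} [∀ k, Fact (1 ≤ p k)] (z : ZSpace p) (k : ℕ) : LSpace (p k) :=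
  z.toLp k

/-- The index set of the Haar system: `none` stands for the constant function `1`, and
`some ⟨n, j⟩` for the dyadic interval `[j / 2^n, (j + 1) / 2^n)`, `0 ≤ j < 2^n`. -/
abbrev HaarIndex : Type := Option (Σ n : ℕ, Fin (2 ^ n))

/-- The indicator function of the interval `[a / 2^n, (a + 1/2) / 2^n)`. -/
noncomputable def halfInd (n : ℕ) (a : ℝ) : ℝ → ℝ :=
  (Set.Ico (a / 2 ^ n) ((a + 1 / 2) / 2 ^ n)).indicator 1

/-- The Haar system: the constant function `1`, and for the interval `I = [j / 2^n, (j + 1) / 2^n)`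
the function which is `1` on the left half of `I`, `-1` on the right half, and `0` elsewhere. -/
noncomputable def haar : HaarIndex → ℝ → ℝ
  | none, _ => 1
  | some ⟨n, j⟩, x => halfInd n (j : ℝ) x - halfInd n ((j : ℝ) + 1 / 2) x

theorem haar_measurable (I : HaarIndex) : Measurable (haar I) := by
  rcases I with _ | ⟨n, j⟩
  · exact measurable_const
  · exact (measurable_one.indicator measurableSet_Ico).sub (measurable_one.indicator measurableSet_Ico)

theorem haar_bound (I : HaarIndex) (x : ℝ) : ‖haar I x‖ ≤ 2 := by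
  rcases I with _ | ⟨n, j⟩
  · simp [haar]
  · have h1 : ∀ S : Set ℝ, ‖S.indicator (1 : ℝ → ℝ) x‖ ≤ 1 := by
      intro S
      by_cases h : x ∈ S <;> simp [h]
    refine (norm_sub_le _ _).trans ?_
    have := h1 (Set.Ico ((j : ℝ) / 2 ^ n) (((j : ℝ) + 1 / 2) / 2 ^ n))
    have := h1 (Set.Ico (((j : ℝ) + 1 / 2) / 2 ^ n) (((j : ℝ) + 1 / 2 + 1 / 2) / 2 ^ n))
    simp only [halfInd]
    linarith

theorem haar_memLp (p : ℝ≥0∞) (I : HaarIndex) :
    MemLp (haar I) p lebesgue :=
  MemLp.of_bound (μ := (volume : Measure ℝ).restrict (Set.Ico 0 1))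
    (haar_measurable I).aestronglyMeasurable 2 (Eventually.of_forall (haar_bound I))

/-- The Haar function as an element of `L^p`. -/
noncomputable def haarVec (p : ℝ≥0∞) (I : HaarIndex) : LSpace p := (haar_memLp p I).toLp

variable (p : ℕ → ℝ≥0∞) [∀ k, Fact (1 ≤ p k)]

/-- The Haar array: `h_{k,I} ∈ Z` is the Haar function `h_I` in the coordinate `k`, with zeros in all
the other coordinates. -/
noncomputable def haarArray (k : ℕ) (I : HaarIndex) : ZSpace p :=
  lp.single (E := fun k => LSpace (p k)) ∞ k (haarVec (p k) I)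

/-- The integral `∫ f h_I` over `[0,1)`. -/
noncomputable def haarInt (I : HaarIndex) (f : ℝ → ℝ) : ℝ := ∫ x, f x * haar I x ∂lebesgue

/-- The coefficient of `h_I` in the Haar expansion of the coordinate `z_k` of `z`:
`(∫ z_k h_I) / (∫ h_I ^ 2)`. -/
noncomputable def haarCoeff (k : ℕ) (I : HaarIndex) (z : ZSpace p) : ℝ :=
  haarInt I (z.coord k).fn / haarInt I (haar I)

/-- The bounded linear operators on `Z`. -/
abbrev Operator : Type := ZSpace p →L[ℝ] ZSpace p

/-- The operator `T` has large diagonal: `inf |h*_{k,I} (T h_{k,I})| > 0`. -/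
def LargeDiagonal (T : Operator p) : Prop :=
  ∃ δ : ℝ, 0 < δ ∧ ∀ k I, δ ≤ |haarCoeff p k I (T (haarArray p k I))|

/-- The Haar array has the factorization property in `Z`: the identity of `Z` factors through every
bounded linear operator with large diagonal, `I_Z = A T B`. -/
def HasFactorizationProperty : Prop :=
  ∀ T : Operator p, LargeDiagonal p T → ∃ A B : Operator p, ∀ z, A (T (B z)) = z

open Pool.Agent.T2H63.HF

theorem exists_index {s : ℕ} (hs : 1 ≤ s) : ∃ j : Fin (2 ^ lv s), (s : ℝ) = 2 ^ lv s + (j : ℝ) := by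
  have h1 : 2 ^ lv s ≤ s := Nat.pow_log_le_self 2 (by omega)
  have h2 : s < 2 ^ (lv s + 1) := Nat.lt_pow_succ_log_self one_lt_two s
  have h3 : s - 2 ^ lv s < 2 ^ lv s := by rw [pow_succ] at h2; omega
  refine ⟨⟨s - 2 ^ lv s, h3⟩, ?_⟩
  simp only
  rw [Nat.cast_sub h1]
  push_cast
  ring

theorem hfun_eq_haar {s : ℕ} (hs : 1 ≤ s) (j : Fin (2 ^ lv s)) (hj : (s : ℝ) = 2 ^ lv s + (j : ℝ)) :
    hfun s = haar (some ⟨lv s, j⟩) := by
  have hI1 : I (2 * s) = Set.Ico ((j : ℝ) / 2 ^ lv s) (((j : ℝ) + 1 / 2) / 2 ^ lv s) := by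
    rw [I, lv_two_mul hs]
    push_cast
    rw [hj]
    congr 1
    · rw [pow_succ]; field_simp; ring
    · rw [pow_succ]; field_simp; ring
  have hI2 : I (2 * s + 1) =
      Set.Ico (((j : ℝ) + 1 / 2) / 2 ^ lv s) (((j : ℝ) + 1 / 2 + 1 / 2) / 2 ^ lv s) := by
    rw [I, lv_two_mul_add_one hs]
    push_cast
    rw [hj]
    congr 1
    · rw [pow_succ]; field_simp; ring
    · rw [pow_succ]; field_simp; ring
  ext x
  simp only [hfun, haar, if_neg (show s ≠ 0 by omega), hI1, hI2, halfInd]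

theorem hv_eq_haarVec (q : ℝ≥0∞) [Fact (1 ≤ q)] {s : ℕ} (i : HaarIndex)
    (hi : hfun s = haar i) : (hv q s : E q) = (haarVec q i).toLp := by
  have h := comb_ae q {s} (fun _ => 1)
  have h1 : comb q {s} (fun _ => 1) = hv q s := by simp [comb]
  have h2 : TX {s} (fun _ => 1) = hfun s := by ext x; simp [TX]
  rw [h1, h2, hi] at h
  exact Lp.ext (h.trans (MemLp.coeFn_toLp (haar_memLp q i)).symm)

theorem len_eq (s : ℕ) (i : HaarIndex) (hi : hfun s = haar i) :
    haarInt i (haar i) = len s := by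
  have : Fact ((1 : ℝ≥0∞) ≤ 1) := ⟨le_rfl⟩
  have h := pair_hv 1 s s
  rw [if_pos rfl, pair_apply, hv_eq_haarVec 1 i hi] at h
  rw [← h]
  refine integral_congr_ae ?_
  filter_upwards [MemLp.coeFn_toLp (haar_memLp 1 i)] with x hx
  rw [hi]
  show haar i x * haar i x = (haarVec 1 i).toLp x * haar i x
  congr 1
  exact hx.symm

/-- An operator on `Z`, as an operator on the space `ZZ` of the proof (the same space). -/
noncomputable def toOp (T : Operator p) : ZZ p →L[ℝ] ZZ p := T

/-- An operator on the space `ZZ` of the proof, as an operator on `Z` (the same space). -/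
noncomputable def ofOp (T : ZZ p →L[ℝ] ZZ p) : Operator p := T

theorem toOp_haarArray (T : Operator p) (k : ℕ) (s : ℕ) (i : HaarIndex) (hi : hfun s = haar i) :
    ((toOp p T) (sg p k (hv (p k) s))) k = ((T (haarArray p k i)).coord k).toLp := by
  rw [hv_eq_haarVec (p k) i hi]
  rfl

/-- **The Haar array in `Z = ℓ^∞(L^{p_k} : k ∈ ℕ)` has the factorization property whenever
`1 ≤ p_k < ∞` and `p_k → 1` or `p_k → ∞`.** -/
theorem result (hp : ∀ k, p k ≠ ∞) (hlim : Tendsto p atTop (𝓝 1) ∨ Tendsto p atTop (𝓝 ∞)) :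
    HasFactorizationProperty p := by
  intro T hT
  obtain ⟨δ, hδ, hT⟩ := hT
  obtain ⟨κ, hκ⟩ : ∃ κ, Lim κ p := by
    rcases hlim with h | h
    · exact ⟨true, by simpa [Lim] using h⟩
    · exact ⟨false, by simpa [Lim] using h⟩
  obtain ⟨A, B, h⟩ := main κ p hp hκ (toOp p T) δ hδ (by
    intro k s hs
    obtain ⟨j, hj⟩ := exists_index hs
    have hi := hfun_eq_haar hs j hj
    have h1 := hT k (some ⟨lv s, j⟩)
    rw [haarCoeff, len_eq s _ hi] at h1
    have hlen : 0 < len s := by unfold len; positivity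
    rw [abs_div, abs_of_pos hlen, le_div_iff₀ hlen] at h1
    rw [pair_apply, toOp_haarArray p T k s _ hi, hi]
    exact h1)
  exact ⟨ofOp p A, ofOp p B, h⟩

end Pool.Agent.Results.MP_e03f8f_an.FactorizationProperty
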